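import Pool.Agent.Y174.L4

/-!
# Weak abundance for log canonical pairs with logarithmic multivalued 1-forms relative to a tensor

Let `(X, Δ)` be a log canonical pair of dimension `n = d + r`, `K` the function field of `X`. Let
`δ v ≥ 0` be the multiplicity of `Δ` at the prime divisor `v` over `X`, i.e. the maximum of `0` and
`- a(v, X, Δ)` (so `δ v ≤ 1`), and let `B` be any set of prime divisors `v` over `X` with `δ v = 1`, for
instance the log canonical places, or those which lie over some of the components of `⌊Δ⌋`.

Let `T = a (α 1 ∧ ... ∧ α d) ^ m`, `m ≥ 1`, be a nonzero decomposable section of the `m`-th power of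
the sheaf of logarithmic `d`-forms with poles along `B`, twisted by `m Δ`; the `α j` are rational
1-forms and `a` is a rational function. For instance `d = 0`, or `T` comes from a section of
`m (K_Z + Δ_Z)` for a pair `(Z, Δ_Z)` of dimension `d` and a suitable dominant rational map `X ⇢ Z`.
Let `ω i` be finitely many multivalued 1-forms on `X`, with values in the algebraic closure of `K`,
which are logarithmic with poles along `B`: along each prime divisor they take the (logarithmic)
vector fields to functions which are integral over the ring of the regular functions. Suppose that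
no rational vector field `D ≠ 0` is killed by all `α j` and `ω i`.

**Theorem.** There is a finite Galois cover `X'` of `X` with `r` logarithmic 1-forms which are, with the
pull-backs of the `α j`, linearly independent, and `κ(X, K_X + Δ) ≥ 0`. Let `K_{X'} + Δ'` be the
pull-back of `K_X + Δ`, with `Δ'` replaced by its positive part: it has the multiplicities
`δ' w = max (0, 1 - e (1 - δ v))`, `e` the ramification index. Then
`κ(X', K_{X'} + Δ') = κ(X, K_X + Δ)` and `ν(X, K_X + Δ) ≤ ν(X', K_{X'} + Δ')`. So weak abundance for
`(X', Δ')` implies weak abundance for `(X, Δ)`.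

The point is that the cover has in general ramification which is not contained in the boundary and
not compensated by it: `K_{X'} + Δ'` is in general larger than the pull-back of `K_X + Δ` (it is the
pull-back if and only if `e (1 - δ v) ≤ 1` for all ramified divisors), but it has the same
Kodaira dimension. For `d = 0` the pair `(X', Δ')` is of maximal logarithmic Albanese dimension, a
case in which abundance is accessible; in general only the leaves of dimension `d` of the
quasi-Albanese map of `X'` are left.

Proof (`Pool/Agent/Y174`). Products of determinants of differences of conjugate forms and of the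
`α j` give a section `Θ` of a multiple of `K_X + Δ` whose pull-back vanishes, as a section of the
pull-back of this multiple, along all divisors which are ramified over `X` and do not lie on `B`. The
sections of the multiples of `K_{X'} + Δ'` descend, up to powers, after multiplication by powers of
`Θ`.
-/

set_option autoImplicit false

open FF Pool.Agent.W619.PQ Pool.Agent.W619.TW Pool.Agent.Y174

namespace Pool.Agent.Results.MP_2c56d9_ag.LogMultivaluedForms

/-- `η` is a logarithmic 1-form on the variety of dimension `n` with function field `L`: along all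
prime divisors `w` it takes the vector fields which are regular along `w`, and logarithmic if `Bd w`,
to regular functions. -/
def IsLogForm {L : Type} [Field L] [Algebra ℂ L] (n : ℕ) (Bd : Place ℂ L → Prop)
    (η : Derivation ℂ L L →ₗ[L] L) : Prop :=
  ∀ w : Place ℂ L, IsDivisorial w n → ∀ D : Derivation ℂ L L, LogFld Bd w D → w.Reg (η D)

/-- Weak abundance for the pair of dimension `n` with function field `K` and the multiplicities `δ`:
`ν ≤ κ`, that is, if `κ ≤ h` then `ν ≤ h`, for all `h ≥ 0`. -/
def WeakAbundance (K : Type) [Field K] [Algebra ℂ K] (n : ℕ) (δ : Place ℂ K → ℝ) : Prop :=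
  ∀ h : ℕ, ¬ PairKod ℂ K n δ (h + 1) → PairNum ℂ K n δ h

/-- **Pairs with a decomposable logarithmic tensor and complementary logarithmic multivalued
1-forms.** -/
theorem result {K : Type} [Field K] [Algebra ℂ K] [Algebra.EssFiniteType ℂ K] {d r m : ℕ}
    (hn : Algebra.trdeg ℂ K = (d + r : ℕ))
    -- the pair
    {Bd : Place ℂ K → Prop} {δ : Place ℂ K → ℝ} (hδ : ∀ v, 0 ≤ δ v) (hB : ∀ v, Bd v → δ v = 1)
    -- the tensor
    (hm : 1 ≤ m) {α : Fin d → Derivation ℂ K K →ₗ[K] K} (hα : LinearIndependent K α) {a : K}
    (ha : a ≠ 0) (hT : TensorLog (d + r) m Bd δ α a)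
    -- the multivalued forms
    {ι : Type} [Finite ι] {ω : ι → Derivation ℂ K K →ₗ[K] AlgebraicClosure K}
    (hω : ∀ i, MultiLog (d + r) Bd (ω i))
    (hker : ∀ D : Derivation ℂ K K, (∀ l, α l D = 0) → (∀ i, ω i D = 0) → D = 0) :
    PairKod ℂ K (d + r) δ 0 ∧
    ∃ L : IntermediateField K (AlgebraicClosure K), FiniteDimensional K L ∧ IsGalois K L ∧
      (∃ (α' : Fin d → (Derivation ℂ L L →ₗ[L] L)) (η : Fin r → (Derivation ℂ L L →ₗ[L] L)),
        (∀ l, IsPullForm (α l) (α' l)) ∧ LinearIndependent L (Fin.append α' η) ∧
        ∀ i, IsLogForm (d + r) (BdOn Bd) (η i)) ∧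
      ∀ δ' : Place ℂ L → ℝ, IsPull δ δ' →
        (∀ h, PairKod ℂ K (d + r) δ h ↔ PairKod ℂ L (d + r) δ' h) ∧
        (∀ h, PairNum ℂ L (d + r) δ' h → PairNum ℂ K (d + r) δ h) ∧
        (WeakAbundance L (d + r) δ' → WeakAbundance K (d + r) δ) := by
  obtain ⟨L, h1, h2, ⟨α', η, h3, h4, h5⟩, h6, h7⟩ :=
    main_L2 ‹Algebra.EssFiniteType ℂ K› hn hm Bd δ hδ hB α hα a ha hT ω hω hker
  refine ⟨h6, L, h1, h2, ⟨α', η, h3, h4, fun i w hw D hD => h5 i w hw D hD⟩, fun δ' hδ' => ?_⟩
  obtain ⟨h8, h9⟩ := h7 δ' hδ'
  exact ⟨h8, h9, fun hL h hk => h9 h (hL h fun hc => hk ((h8 _).2 hc))⟩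

end Pool.Agent.Results.MP_2c56d9_ag.LogMultivaluedForms
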