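import Pool.Agent.U192.PN.MainProd

/-!
# Weak abundance for the pairs dominated by the product of a variety and a log canonical pair of
numerical dimension zero

Let `X` and `Y` be projective varieties over `ℂ`, `dim X = d`, `dim Y = r + 1 ≥ 1`, and `Δ_Y` the
boundary of a log canonical pair `(Y, Δ_Y)` with `κ(K_Y + Δ_Y) = ν(K_Y + Δ_Y) = 0`. For instance a log
Calabi-Yau pair, a toric variety with its boundary, or any compactification, with reduced boundary,
of a semi-abelian variety. Let `f i : X ⇢ ℙ^{N i}`, `i < k`, be rational maps such that `X` is mapped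
birationally into the product of the projective spaces, and let `H i` be the pull-back of a hyperplane
to a model of `X`. For instance `k = 1` and `X ⊆ ℙ^N`.

Let `V = X × Y ⇢ W` be a dominant rational map of finite degree to any variety `W`. It need not be
compatible with the projections, and it need not be a Galois cover. Let `W_i` be the image of `V` in
`W × ℙ^{N 0} × ... × ℙ^{N (i - 1)}` and let `δ i` be the degree of `W_{i + 1}` over `W_i`. Let `Δ` be an
effective `ℝ`-divisor on `W` (given by its multiplicities `δ P ≥ 0` at all prime divisors `P` over `W`,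
for instance `δ P = max (0, - a(P, W, Δ))`), such that the positive part `Δ_V` of the divisor
`Δ' = f^* Δ - R` on `V`, where `K_V + Δ' = f^* (K_W + Δ)`, is at most the product `X × Δ_Y` over the
generic point of `X`. Nothing is assumed about `Δ_V` at the prime divisors which are not mapped onto
`X`. (A prime divisor `Q` over `V` which is mapped onto `X` and lies over the prime divisor `P` over `Y`
with ramification index `e` has the multiplicity `- a(Q, X × Y, X × Δ_Y) ≤ 1 - e (1 - δ_Y P)`.)

Suppose that `K_X - 2 ∑ (δ i - 1) H i` is big: for some `m ≥ 1` there are `m`-canonical forms on `X`,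
with at least the zeros `2 m ∑ (δ i - 1) H i`, whose ratios contain `d` algebraically independent
functions. For instance `X ⊆ ℙ^{d + 1}` is a smooth hypersurface of degree more than `d + 2 δ 0`. Then the
following are equivalent:

* `ν(K_W + Δ) ≠ -∞`, i.e. `K_W + Δ` is pseudo-effective;
* `κ(K_W + Δ) ≥ 0`;
* `κ(K_W + Δ) ≥ d`.

Moreover `ν(K_W + Δ) ≤ d` always. So `κ(K_W + Δ) = ν(K_W + Δ)` is `-∞` or `dim X`: weak abundance holds
for `(W, Δ)`.

Quasi-projective varieties. Let `Y°` be a quasi-projective variety with `κ̄(Y°) = ν̄(Y°) = 0`, for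
instance a semi-abelian variety or a torus, and let `X × Y° → W°` be a proper dominant morphism of
finite degree (or only a rational map which is proper over the generic point of `X`). Take `δ P = 1`
if `P` has no centre on `W°`, and `δ P = 0` otherwise. Then the theorem is about the logarithmic
Kodaira dimension of `W°`: `κ̄(W°) = ν̄(W°)` is `-∞` or `dim X`, with all the ramification of
`X × Y° → W°` allowed. (The examples, and Nakayama's theorem that `K_W + Δ` is pseudo-effective if and
only if `ν ≠ -∞` in the sense of the growth of sections, are not part of the Lean proof.)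

Proof. The main point is a theorem on base change: the generic fibre of `X × Y → X`, with the boundary
`Δ_Y`, has at most the numerical dimension of `(Y, Δ_Y)`; this is proved by means of the Gauss
extensions of the prime divisors over `Y`. If `α` is an `m`-canonical form on `X` and `β` a section of
`m (K_Y + Δ_Y)` then at a prime divisor `Q` over `V` which lies with the multiplicity `c` over a prime
divisor `P` over `X` the form `α ⊠ β` vanishes at least to the order `m (c - 1) + c · ord_P α`. This
is true also if `Q` lies over a prime divisor over `Y` where `β` has poles, as `(Y, Δ_Y)` is log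
canonical and the form `dx / x ∧ dy / y` has only a simple pole along `Q`. So the theorem on the pairs
which are dominated by fibre spaces (`MP_badc2d_ag.FibreSpacePairs`) can be applied, whose proof uses
norms of pluricanonical forms.
-/

set_option autoImplicit false
set_option linter.overlappingInstances false

open FF Module Pool.Agent.W602.GT
open Pool.Agent.W619.TW (HasIndep)
open Pool.Agent.Y174 (PairSec PairKod PairNum)

namespace Pool.Agent.Results.MP_2c56d9_ag.LogProductImages

/-- The order of the poles along `P` of the functions in the finite set `Y`: the multiplicity along `P`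
of the pull-back of a hyperplane under the rational map with the coordinates `1` and `Y`. -/
noncomputable def poleOrder {U : Type} [Field U] [Algebra ℂ U] (Y : Finset U) (P : Place ℂ U) : ℕ :=
  Y.sup fun z => (-P.ord z).toNat

/-- The functions on `X` as functions on `V = X × Y`. -/
def onV {L : Type} [Field L] [Algebra ℂ L] {U : IntermediateField ℂ L} (Y : Finset U) : Finset L :=
  Y.map (Function.Embedding.subtype fun z => z ∈ U)

/-- The function field of the image `W_j` of `V` in the product of `W` and the first `j` projective
spaces. `K` and `L` are the function fields of `W` and `V`, and `X i` is the set of the affine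
coordinates of the `i`-th rational map. -/
def Img {L : Type} [Field L] [Algebra ℂ L] {U : IntermediateField ℂ L} (K : Type) [Field K]
    [Algebra K L] {k : ℕ} (X : Fin k → Finset U) (j : ℕ) : IntermediateField K L :=
  IntermediateField.adjoin K {z | ∃ i : Fin k, i.val < j ∧ z ∈ onV (X i)}

/-- The degree `δ i` of `W_{i + 1}` over `W_i`. -/
noncomputable def deg {L : Type} [Field L] [Algebra ℂ L] {U : IntermediateField ℂ L} (K : Type)
    [Field K] [Algebra K L] {k : ℕ} (X : Fin k → Finset U) (i : Fin k) : ℕ :=
  finrank (Img K X i) (IntermediateField.adjoin (Img K X i) (onV (X i) : Set L))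

/-- `θ` is a section of `m K_X - H`, where `U` is the function field of the variety `X`, of dimension
`d`, and `H` has the multiplicity `b P` at `P`: the order of the `m`-canonical form `θ` along each prime
divisor `P` over `X` is at least `b P`. -/
def IsSection {U : Type} [Field U] [Algebra ℂ U] (d m : ℕ) (b : Place ℂ U → ℤ)
    (θ : (Fin d → Derivation ℂ U U) → U) : Prop :=
  IsPluri m θ ∧ ∀ P : Place ℂ U, Divisorial d P → ∀ G : Fin d → Derivation ℂ U U,
    (∀ i, DerReg P (G i)) → θ G ≠ 0 → b P ≤ P.ord (θ G)

/-- `Q` lies over `P` with the ramification index `e`. -/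
def LiesOver {K L : Type} [Field K] [Field L] [Algebra ℂ K] [Algebra ℂ L] [Algebra K L]
    (Q : Place ℂ L) (P : Place ℂ K) (e : ℕ) : Prop :=
  0 < e ∧ ∀ f : K, Q.ord (algebraMap K L f) = e * P.ord f

/-- `Δ_V` is the positive part of the divisor `Δ'` with `K_V + Δ' = f^* (K_W + Δ)`. The multiplicity
of `Δ` at a prime divisor `P` over `W` is `δ P`. -/
def IsPullBack {K L : Type} [Field K] [Field L] [Algebra ℂ K] [Algebra ℂ L] [Algebra K L]
    (δ : Place ℂ K → ℝ) (δV : Place ℂ L → ℝ) : Prop :=
  ∀ (P : Place ℂ K) (Q : Place ℂ L) (e : ℕ), LiesOver Q P e → δV Q = max 0 (1 - e * (1 - δ P))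

/-- The divisor `Δ_V` on `V = X × Y`, of dimension `n`, is at most the product `X × Δ_Y` over the
generic point of `X`. `U` and `T` are the function fields of `X` and `Y`. Let `Q` be a prime divisor
over `V` which is mapped onto `X`. If it is mapped onto `Y`, too, then the multiplicity of `Δ_V` is at
most `0`, and if it lies over the prime divisor `P` over `Y` with the ramification index `e` then the
multiplicity is at most the one of the positive part of the pull-back, `max 0 (1 - e (1 - δ_Y P))`. -/
def IsProductBoundary {L : Type} [Field L] [Algebra ℂ L] (U T : IntermediateField ℂ L) (n : ℕ)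
    (δV : Place ℂ L → ℝ) (δY : Place ℂ T → ℝ) : Prop :=
  ∀ Q : Place ℂ L, Divisorial n Q → (∀ z ∈ U, Q.ord z = 0) →
    ((∀ z ∈ T, Q.ord z = 0) → δV Q ≤ 0) ∧
    ∀ (P : Place ℂ T) (e : ℕ), LiesOver Q P e → δV Q ≤ max 0 (1 - e * (1 - δY P))

/-- The multiplicities of `Δ` at all prime divisors over the variety of dimension `n` are bounded by
those of a divisor, the divisor of the poles of finitely many functions. -/
def IsBounded {K : Type} [Field K] [Algebra ℂ K] (n : ℕ) (δ : Place ℂ K → ℝ) : Prop :=
  ∃ S : Finset K, ∀ P : Place ℂ K, Divisorial n P → ∃ s ∈ S, s ≠ 0 ∧ δ P ≤ -P.ord s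

/-- `ν (K_W + Δ) = -∞`, i.e. `K_W + Δ` is not pseudo-effective: for every divisor `A`, generated by
a finite set `S` of functions, `m (K_W + Δ) + A` has no nonzero section for all large `m`. -/
def NotPseff (K : Type) [Field K] [Algebra ℂ K] (n : ℕ) (δ : Place ℂ K → ℝ) : Prop :=
  ∀ S : Finset K, ∃ m0 : ℕ, ∀ m : ℕ, m0 ≤ m → ¬ HasIndep ℂ K n 1 (PairSec ℂ K n δ S m 1)

/-- **Weak abundance for pairs dominated by products.** Let `L` be the function field of the product
`V` of the varieties `X` and `Y` with the function fields `U` and `T`, of dimensions `d` and `r + 1`: it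
is generated by `U` and `T` and has the transcendence degree `d + (r + 1)`. Let `Δ_Y` be a divisor with
multiplicities `0 ≤ δ_Y P ≤ 1` at the prime divisors over `Y`, with `ν(K_Y + Δ_Y) ≤ 0` and
`κ(K_Y + Δ_Y) ≥ 0`. Let `U` be generated by the finitely many coordinates in the sets `X i`. Let `K ⊆ L`
be the function field of a variety `W`, the extension being finite, and `Δ` an effective divisor,
whose pull-back `Δ_V` is at most the product `X × Δ_Y` over the generic point of `X`. Suppose that there are
sections `θ 0, ..., θ d` of `m (K_X - 2 ∑ (δ i - 1) H i)` whose ratios are algebraically independent.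
Then `ν(K_W + Δ) ≠ -∞` if and only if `κ(K_W + Δ) ≥ 0`, if and only if `κ(K_W + Δ) ≥ d`. Moreover,
`ν(K_W + Δ) ≤ d`. -/
theorem result {L : Type} [Field L] [Algebra ℂ L] (U T : IntermediateField ℂ L)
    [Algebra.EssFiniteType ℂ U] [Algebra.EssFiniteType ℂ T] {d r m k : ℕ} (hUT : U ⊔ T = ⊤)
    (hU : Algebra.trdeg ℂ U = d) (hT : Algebra.trdeg ℂ T = (r + 1 : ℕ))
    (hL : Algebra.trdeg ℂ L = (d + (r + 1) : ℕ))
    (δY : Place ℂ T → ℝ) (hY0 : ∀ P, 0 ≤ δY P) (hY1 : ∀ P, Divisorial (r + 1) P → δY P ≤ 1)
    (hν : PairNum ℂ T (r + 1) δY 0) (hκ : PairKod ℂ T (r + 1) δY 0)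
    (X : Fin k → Finset U) (hX : IntermediateField.adjoin ℂ (⋃ i, (X i : Set U)) = ⊤)
    (K : Type) [Field K] [Algebra ℂ K] [Algebra K L] [IsScalarTower ℂ K L] [FiniteDimensional K L]
    (δ : Place ℂ K → ℝ) (hδ0 : ∀ P, 0 ≤ δ P) (hδ : IsBounded (d + (r + 1)) δ)
    (δV : Place ℂ L → ℝ) (hδV : IsPullBack δ δV)
    (hprod : IsProductBoundary U T (d + (r + 1)) δV δY)
    (hm : 1 ≤ m) (θ : Fin (d + 1) → (Fin d → Derivation ℂ U U) → U)
    (hθ : ∀ j, IsSection d m
      (fun P => ∑ i, 2 * m * ((deg K X i : ℤ) - 1) * poleOrder (X i) P) (θ j))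
    (D : Fin d → Derivation ℂ U U) (hD : θ 0 D ≠ 0)
    (hind : AlgebraicIndependent ℂ fun j : Fin d => θ j.succ D / θ 0 D) :
    [¬ NotPseff K (d + (r + 1)) δ, PairKod ℂ K (d + (r + 1)) δ 0,
      PairKod ℂ K (d + (r + 1)) δ d].TFAE ∧
    PairNum ℂ K (d + (r + 1)) δ d :=
  U192.PN.abu_prod U T hm hUT hU hT hL hδ0 hδ hδV hY0 hY1 hprod hν hκ X hX
    (fun j => (hθ j).1) (fun j => (hθ j).2) hD hind

end Pool.Agent.Results.MP_2c56d9_ag.LogProductImages
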