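import Pool.Agent.Y174.OB.O10

/-!
# Weak abundance for pairs whose orbifold symmetric differentials have no common zeros

Let `V → W` be an algebraic fibre space, `dim W = d`, `dim V = d + (r + 1)`, with function fields `K`
and `L`, for instance the Iitaka fibration of `K_V + Δ`, where `Δ` has the multiplicity `δ v` at each
prime divisor `v` over `V`. Let `F` be the function field of the geometric generic fibre, over the
algebraic closure `Λ` of `L`, and `δF` the multiplicities of the restriction `Δ_F` of `Δ`. Let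
`Δ_0 ≤ Δ_F` be an orbifold divisor in the sense of Campana (all the multiplicities are `1` or
`1 - 1 / q`), for instance `0`, or the largest one below `Δ_F`.

Suppose that `κ (F, K_F + Δ_F) ≤ 0` and that the symmetric differentials, of arbitrary degrees, of the
orbifold `(F, Δ_0)` have no common zeros over the geometric generic point: the stable base locus of the
tautological line bundle on the projectivized tangent bundle of the orbifold does not dominate `F`. It is
sufficient that this is so for an orbifold divisor on `V` with restriction `Δ_0`.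

**Theorem.** There is a finite Galois cover of `F`, with function field `M`, with `r + 1` linearly
independent orbifold 1-forms, which give `r + 1` linearly independent logarithmic 1-forms on the cover,
with poles over the components of multiplicity `1` of `Δ_0` only. Moreover `κ (F, K_F + Δ_F) = 0`. Let
`Δ_M` be the positive part of the divisor `Δ'` with `K_M + Δ' = π^* (K_F + Δ_F)`. Then
`κ (M, K_M + Δ_M) = 0`, `ν (F, K_F + Δ_F) ≤ ν (M, K_M + Δ_M)` and
`ν (V, K_V + Δ) ≤ dim W + ν (M, K_M + Δ_M)`. In particular, if `κ (V, K_V + Δ) ≥ dim W`, for instance if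
`V → W` is the Iitaka fibration, then weak abundance for the pair `(M, Δ_M)`, which is of maximal
logarithmic Albanese dimension and of Kodaira dimension `0`, implies weak abundance for `(V, Δ)`.
-/

set_option autoImplicit false

open FF Pool.Agent.W619.PQ Pool.Agent.W619.TW Pool.Agent.Y174

namespace Pool.Agent.Results.MP_2c56d9_ag.OrbifoldSymmetricDifferentials

/-- `η` is a logarithmic 1-form on the variety of dimension `n` over `k` with function field `M`, with
poles along the prime divisors `w` with `Bd w`: along each prime divisor `w` it takes the vector fields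
which are regular along `w`, and tangent to `w` if `Bd w` holds, to functions regular along `w`. -/
def IsLogForm {k M : Type} [Field k] [Field M] [Algebra k M] (n : ℕ) (Bd : Place k M → Prop)
    (η : Derivation k M M →ₗ[M] M) : Prop :=
  ∀ w : Place k M, IsDivisorial w n → ∀ D : Derivation k M M, LogFld Bd w D → w.Reg (η D)

/-- Weak abundance `ν ≤ κ` for the pair of dimension `n` over `k` with function field `K` and the
multiplicities `δ`, for `κ ≥ 0`: if `κ ≤ h` then `ν ≤ h`, for all `h ≥ 0`. -/
def WeakAbundance (k K : Type) [Field k] [Field K] [Algebra k K] (n : ℕ) (δ : Place k K → ℝ) : Prop :=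
  ∀ h : ℕ, ¬ PairKod k K n δ (h + 1) → PairNum k K n δ h

theorem kod_le {k K : Type} [Field k] [CharZero k] [Field K] [Algebra k K] {n : ℕ}
    {δ : Place k K → ℝ} {a b : ℕ} (hab : a ≤ b) (h : PairKod k K n δ b) : PairKod k K n δ a := by
  induction hab with
  | refl => exact h
  | step _ ih => exact ih (OB.kod_mono h)

theorem num_le {k K : Type} [Field k] [Field K] [Algebra k K] {n : ℕ} {δ : Place k K → ℝ}
    {a b : ℕ} (hab : a ≤ b) (h : PairNum k K n δ a) : PairNum k K n δ b := by
  intro S
  obtain ⟨C, hC⟩ := h S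
  refine ⟨C, fun m N hm hN => (hC m N hm hN).trans ?_⟩
  exact Nat.mul_le_mul_left _ (Nat.pow_le_pow_right hm hab)

/-- **Weak abundance for pairs whose orbifold symmetric differentials have no common zeros over a
general point of the fibre.** -/
theorem result {L K Λ F : Type} [Field L] [Field K] [Field Λ] [Field F]
    -- the function fields of `W` and `V`
    [Algebra ℂ L] [Algebra ℂ K] [Algebra L K] [IsScalarTower ℂ L K]
    [Algebra.EssFiniteType ℂ L] [Algebra.EssFiniteType ℂ K] {d r : ℕ}
    (hW : Algebra.trdeg ℂ L = d) (hV : Algebra.trdeg ℂ K = (d + (r + 1) : ℕ))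
    (hLK : ∀ x : K, IsAlgebraic L x → x ∈ Set.range (algebraMap L K))
    -- the geometric generic fibre
    [Algebra L Λ] [IsAlgClosure L Λ] [Algebra Λ F] [Algebra K F] [Algebra L F]
    [IsScalarTower L Λ F] [IsScalarTower L K F] [Algebra ℂ Λ] [Algebra ℂ F]
    [IsScalarTower ℂ L Λ] [IsScalarTower ℂ Λ F] [IsScalarTower ℂ K F]
    (hF : IntermediateField.adjoin Λ (Set.range (algebraMap K F)) = ⊤)
    -- the multiplicities `δ` of `Δ`, bounded by finitely many divisors, `δF` of `Δ_F`, `δ0` of `Δ_0`
    {δ : Place ℂ K → ℝ} {G : Finset K}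
    (hG : ∀ v : Place ℂ K, IsDivisorial v (d + (r + 1)) → ∃ g ∈ G, g ≠ 0 ∧ δ v ≤ (v.ord g : ℝ))
    {δF δ0 : Place Λ F → ℝ} (hδF : IsPullFib δ δF) (hO : IsOrb δ0) (hle : ∀ w, δ0 w ≤ δF w)
    -- the Kodaira dimension of the fibre and the symmetric differentials
    (hκ : ¬ PairKod Λ F (r + 1) δF 1)
    (hS : NoBaseOrb Λ F (r + 1) δ0 ∨ ∃ δV : Place ℂ K → ℝ, IsPullFib δV δ0 ∧ (∀ v, δV v ≤ 1) ∧
      NoBaseOrb ℂ K (d + (r + 1)) δV) :
    ∃ M : IntermediateField F (AlgebraicClosure F), FiniteDimensional F M ∧ IsGalois F M ∧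
      (∃ (ω : Fin (r + 1) → (Derivation Λ F F →ₗ[F] M)), LinearIndependent M ω ∧
        ∀ i, OrbForm (r + 1) δ0 (ω i)) ∧
      (∃ (η : Fin (r + 1) → (Derivation Λ M M →ₗ[M] M)), LinearIndependent M η ∧
        ∀ i, IsLogForm (r + 1) (BdOn fun v => δ0 v = 1) (η i)) ∧
      PairKod Λ F (r + 1) δF 0 ∧ ∀ δ' : Place Λ M → ℝ, IsPull δF δ' →
        (∀ a, PairKod Λ F (r + 1) δF a ↔ PairKod Λ M (r + 1) δ' a) ∧
        (∀ h, PairNum Λ M (r + 1) δ' h →
          PairNum Λ F (r + 1) δF h ∧ PairNum ℂ K (d + (r + 1)) δ (d + h)) ∧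
        (WeakAbundance Λ M (r + 1) δ' → PairKod ℂ K (d + (r + 1)) δ d →
          WeakAbundance ℂ K (d + (r + 1)) δ) := by
  have h1 : IsAlgClosed Λ := IsAlgClosure.isAlgClosed L
  have h2 : Algebra.IsAlgebraic L Λ := IsAlgClosure.isAlgebraic
  have h3 : NoBaseOrb Λ F (r + 1) δ0 := by
    rcases hS with hS | ⟨δV, h4, h5, h6⟩
    · exact hS
    · exact OB.noBase_fib ‹Algebra.EssFiniteType ℂ K› hW hV hF h4 h5 h6
  obtain ⟨M, h4, h5, h6, ⟨η, h7, h8⟩, h9, h10⟩ :=
    OB.main_base ‹Algebra.EssFiniteType ℂ L› ‹Algebra.EssFiniteType ℂ K› hW hV hLK hF hG hδF hO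
      hle hκ h3
  refine ⟨M, h4, h5, h6, ⟨η, h7, fun i w hw D hD => h8 i w hw D hD⟩, h9, fun δ' hδ' => ?_⟩
  obtain ⟨h11, h12⟩ := h10 δ' hδ'
  refine ⟨h11, h12, fun hA hd h hh => ?_⟩
  have h13 : d ≤ h := by
    by_contra hlt
    exact hh (kod_le (by omega) hd)
  exact num_le h13 (h12 0 (hA 0 fun hc => hκ ((h11 _).2 hc))).2

end Pool.Agent.Results.MP_2c56d9_ag.OrbifoldSymmetricDifferentials
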