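import Pool.Agent.U188.LcProd

/-!
# Weak abundance for toroidal log canonical pairs on covers of products of projective spaces

**The varieties.** Let `F i` be a form of degree `d i` in `n i + 1` variables whose zero set in the
projective `n i`-space is a smooth hypersurface, and let `H i` be the cyclic hypersurface
`w ^ (d i) = F i` in the projective `(n i + 1)`-space. Let `Y` be a quotient
`(H 1 × ... × H r) / G`, where `G` is any group of diagonal automorphisms
`w i ↦ ζ i * w i`, `ζ i ^ (d i) = 1`. Equivalently, the function field `K` of `Y` is generated by the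
affine coordinates `x i j / x i 0` of the product of the projective `n i`-spaces and by roots `z j`,
`z j ^ (m j) = ∏ i, (F i (x i) / x i 0 ^ (d i)) ^ (a j i)`, where `m j` divides `a j i * d i`: the
abelian covers of the product of the projective spaces which are branched along the hypersurfaces
`F i = 0` of the factors. There is no condition on the dimensions and the degrees.

A prime divisor `P` over `Y` (a divisorial place of `K`) has the vector `multiplicities F d x P` of the
multiplicities `v i` of the hypersurfaces along `P`. The vectors `v ≠ 0` of nonnegative integers with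
`m j ∣ ∑ i, a j i * v i` for all `j` are the `Admissible` ones: the nonzero points, in the positive
orthant, of the lattice of the toroidal variety `Y` (with the boundary `F i = 0`, `i < r`). The
toroidal modifications `X` of `Y` are given by the subdivisions of the positive orthant into rational
polyhedral cones; `fan` is the set of the cones, each given by admissible generators. (It is enough to
list cones which cover the orthant, for instance the maximal ones.)

**The pairs.** A toroidal pair `(X, Δ)` is given by the function `c`: for admissible `v` the log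
discrepancy of `(X, Δ)` at the toroidal divisor with the multiplicities `v` is `1 - c v`; this is a
piecewise linear function (`K_X + Δ` is `ℚ`-Cartier), and the coefficient of `Δ` at the prime divisor
of `X` which belongs to a primitive generator `s` of a ray is `c s`. The pair is log canonical if
`c s ≤ 1` for all generators of the cones, which is the condition here; it is not assumed that `Δ` is
effective (`c s ≥ 0`), nor that `X` is `ℚ`-factorial. For any prime divisor `P` over `X` the
coefficient of `K_X + Δ`, minus the discrepancy, is at most `c (multiplicities F d x P)` (`c 0 = 0`),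
with equality if `P` is a prime divisor on `X`. So the sections of `m (K_X + Δ)` are the
`m`-canonical forms whose order at every prime divisor `P` over `X` is at least
`- m * c (multiplicities F d x P)`; this is `IsSection`.

**The theorem.** The weight of `v` is `∑ i, (1 - (n i + 1) / d i) * v i`. Then `K_X + Δ` is
pseudo-effective if and only if `κ (X, K_X + Δ) ≥ 0`, if and only if `c s ≥ 1 - weight s` for the
finitely many generators `s` of the cones of the fan. In this case
`κ (X, K_X + Δ) = ν (X, K_X + Δ) = ∑ i ∈ I, n i`, where `I` is the set of those `i` such that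
`s i = 0` for all generators `s` with `c s = 1 - weight s`. In particular the equality `κ = ν` holds
for all these log canonical pairs, of any dimension, with `κ` anything between `-∞` and `dim X`.

The inequalities `κ ≥ ∑ i ∈ I, n i ≥ ν` are the last part of `result`; `κ ≤ ν` holds for every
divisor. `ν` is defined as in the problem, by the growth of the number of sections of
`m (K_X + Δ) + A`, where `A` is any divisor (generated by a finite set `S` of rational functions).

For `Δ = 0`, `X = Y` without the fan the abundance of a smooth model of `Y` is the theorem of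
`Pool.Agent.Results.MP_c2a5fc_ag.HypersurfaceQuotients`; here the pairs with boundary, and the
varieties `X` themselves, which are in general not canonical, are treated. The proof is in
`Pool/Agent/Q57/TQ` and `Pool/Agent/U188`.
-/

set_option autoImplicit false

open FF MvPolynomial Pool.Agent.W602.GT

namespace Pool.Agent.Results.MP_2c56d9_ag.ToroidalPairs

/-- The form `F` has no singular zeros: its partial derivatives have no common zero but `0`. -/
def Smooth {n : ℕ} (F : MvPolynomial (Fin (n + 1)) ℂ) : Prop :=
  ∀ x : Fin (n + 1) → ℂ, x ≠ 0 → ∃ l, eval x (pderiv l F) ≠ 0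

section fans

variable {r R : ℕ}

/-- The multiplicities which satisfy the divisibility conditions. -/
def Admissible (m : Fin R → ℕ) (a : Fin R → Fin r → ℕ) (v : Fin r → ℕ) : Prop :=
  v ≠ 0 ∧ ∀ j, m j ∣ ∑ i, a j i * v i

/-- The vector `v` is in the cone which is generated by the vectors in `σ`. -/
def InCone (σ : Finset (Fin r → ℕ)) (v : Fin r → ℕ) : Prop :=
  ∃ w : (Fin r → ℕ) → ℚ, (∀ s, 0 ≤ w s) ∧ ∀ k, (v k : ℚ) = ∑ s ∈ σ, w s * s k

/-- `fan` is a finite set of cones, generated by admissible vectors, which cover all admissible
vectors; the log discrepancy `1 - c v` is a linear function of the admissible vectors `v` of each cone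
(`K_X + Δ` is `ℚ`-Cartier), `c 0 = 0`, and `c s ≤ 1` for the generators `s` of the cones (the pair is
log canonical). -/
structure IsLogCanonicalPair (m : Fin R → ℕ) (a : Fin R → Fin r → ℕ)
    (fan : Finset (Finset (Fin r → ℕ))) (c : (Fin r → ℕ) → ℚ) : Prop where
  zero : c 0 = 0
  adm : ∀ σ ∈ fan, ∀ s ∈ σ, Admissible m a s
  cover : ∀ v, Admissible m a v → ∃ σ ∈ fan, InCone σ v
  linear : ∀ σ ∈ fan, ∃ u : Fin r → ℚ, ∀ v, Admissible m a v → InCone σ v →
    1 - c v = ∑ k, u k * v k
  le_one : ∀ σ ∈ fan, ∀ s ∈ σ, c s ≤ 1

/-- The weight `∑ i, (1 - (n i + 1) / d i) * v i`. -/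
def weight (n d v : Fin r → ℕ) : ℚ := ∑ i, (1 - ((n i : ℚ) + 1) / d i) * v i

end fans

section places

variable {r : ℕ} {n : Fin r → ℕ} {K : Type} [Field K] [Algebra ℂ K]

/-- The affine coordinates of the product of the projective spaces. -/
noncomputable def affine (x : ∀ i, Fin (n i + 1) → K) (b : (i : Fin r) × Fin (n i)) : K :=
  x b.1 b.2.succ / x b.1 0

/-- The minimal order at `P` of the homogeneous coordinates `y`. -/
noncomputable def minimalOrder {n : ℕ} (y : Fin (n + 1) → K) (P : Place ℂ K) : ℤ :=
  Finset.univ.inf' Finset.univ_nonempty fun j => P.ord (y j)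

/-- The multiplicities of the hypersurfaces `F i = 0` along the prime divisor `P`; the `x i j` are the
homogeneous coordinates of the `i`-th factor, which are divided by one of minimal order at `P`. -/
noncomputable def multiplicities (F : ∀ i, MvPolynomial (Fin (n i + 1)) ℂ) (d : Fin r → ℕ)
    (x : ∀ i, Fin (n i + 1) → K) (P : Place ℂ K) (i : Fin r) : ℕ :=
  (P.ord (aeval (x i) (F i)) - d i * minimalOrder (x i) P).toNat

end places

section sections

variable {K : Type} [Field K] [Algebra ℂ K] (N : ℕ) (δ : Place ℂ K → ℚ)

/-- `ω` is a section of `m (K_X + Δ) + j A`: a rational section of the `m`-th power of the canonical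
bundle (`IsPluri`: a function of `N` rational vector fields which is multiplied by `det B ^ m` under
a linear substitution `B`) whose order on the vector fields which are regular at `P` is at least `j`
times the order of one of the functions in `S`, minus `m` times the coefficient `δ P` of
`K_X + Δ` at `P`, for all prime divisors `P` over `X` (all divisorial places `P` of `K`). Here `A` is
the divisor which is generated by the finite set `S` of functions; `A = 0` if `S = {1}`. -/
def IsSection (S : Finset K) (m j : ℕ) (ω : (Fin N → Derivation ℂ K K) → K) : Prop :=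
  IsPluri m ω ∧ ∀ P : Place ℂ K, Divisorial N P → ∀ D : Fin N → Derivation ℂ K K,
    (∀ b, DerReg P (D b)) → ω D = 0 ∨ ∃ s ∈ S, s ≠ 0 ∧
      (j : ℚ) * P.ord s - m * δ P ≤ P.ord (ω D)

/-- `κ (X, K_X + Δ) ≥ h`: for some `m > 0` there are sections of `m (K_X + Δ)` whose ratios contain
`h` algebraically independent functions (for `h = 0`: there is a nonzero section). -/
def KodairaGe (h : ℕ) : Prop :=
  ∃ m : ℕ, 0 < m ∧ ∃ ω : Fin (h + 1) → (Fin N → Derivation ℂ K K) → K,
    (∀ b, IsSection N δ {1} m 1 (ω b)) ∧
    ∃ D, ω 0 D ≠ 0 ∧ AlgebraicIndependent ℂ (fun b : Fin h => ω b.succ D / ω 0 D)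

/-- `ν (X, K_X + Δ) ≤ h`: for every divisor `A` there is a constant `C` such that
`h⁰ (m (K_X + Δ) + A) ≤ C m ^ h` for all `m ≥ 1`. -/
def NumericalLe (h : ℕ) : Prop :=
  ∀ S : Finset K, ∃ C : ℕ, ∀ m M : ℕ, 1 ≤ m →
    (∃ ω : Fin M → (Fin N → Derivation ℂ K K) → K, LinearIndependent ℂ ω ∧
      ∀ l, IsSection N δ S m 1 (ω l)) → M ≤ C * m ^ h

/-- `K_X + Δ` is pseudo-effective: there is a divisor `A` such that for all `M` a positive multiple of
`M (K_X + Δ) + A` is effective. -/
def Pseudoeffective : Prop :=
  ∃ S : Finset K, ∀ M : ℕ, ∃ j : ℕ, 1 ≤ j ∧ ∃ ω : (Fin N → Derivation ℂ K K) → K, ω ≠ 0 ∧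
    IsSection N δ S (j * M) j ω

end sections

/-- **Weak abundance.** Let `K` be the function field of an abelian cover `Y` of the product of the
projective `n i`-spaces which is branched along smooth hypersurfaces `F i = 0` of the factors, `X` the
toroidal modification of `Y` which is given by `fan`, and `(X, Δ)` the toroidal log canonical pair with
the log discrepancies `1 - c v`. Then `K_X + Δ` is pseudo-effective if and only if
`κ (X, K_X + Δ) ≥ 0` and if and only if `1 - c s ≤ weight s` for all generators `s` of the cones; in
this case `κ (X, K_X + Δ) = ν (X, K_X + Δ) = ∑ i ∈ I, n i`, where `I` is the set of the indices `i`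
such that `s i = 0` for all generators `s` with `weight s = 1 - c s`. -/
theorem result (r N R : ℕ) (n d : Fin r → ℕ) (hr : 1 ≤ r) (hn : ∀ i, 1 ≤ n i)
    (hd : ∀ i, 1 ≤ d i) (hN : N = ∑ i, n i)
    (F : ∀ i, MvPolynomial (Fin (n i + 1)) ℂ) (hF : ∀ i, (F i).IsHomogeneous (d i))
    (hs : ∀ i, Smooth (F i)) (m : Fin R → ℕ) (hm : ∀ j, 1 ≤ m j) (a : Fin R → Fin r → ℕ)
    (hdiv : ∀ j i, m j ∣ a j i * d i)
    (K : Type) [Field K] [Algebra ℂ K] (x : ∀ i, Fin (n i + 1) → K) (hx0 : ∀ i, x i 0 ≠ 0)
    (hbas : IsTranscendenceBasis ℂ (affine x)) (z : Fin R → K)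
    (hz : ∀ j, z j ^ m j = ∏ i, (aeval (x i) (F i) / x i 0 ^ d i) ^ a j i)
    (hgen : IntermediateField.adjoin ℂ (Set.range (affine x) ∪ Set.range z) = ⊤)
    (fan : Finset (Finset (Fin r → ℕ))) (c : (Fin r → ℕ) → ℚ)
    (hpair : IsLogCanonicalPair m a fan c)
    (δ : Place ℂ K → ℚ) (hδ : ∀ P, δ P = c (multiplicities F d x P))
    (I : Finset (Fin r))
    (hI : ∀ i, i ∈ I ↔ ∀ σ ∈ fan, ∀ s ∈ σ, weight n d s = 1 - c s → s i = 0) :
    (Pseudoeffective N δ ↔ ∀ σ ∈ fan, ∀ s ∈ σ, 1 - c s ≤ weight n d s) ∧
    (KodairaGe N δ 0 ↔ ∀ σ ∈ fan, ∀ s ∈ σ, 1 - c s ≤ weight n d s) ∧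
    ((∀ σ ∈ fan, ∀ s ∈ σ, 1 - c s ≤ weight n d s) →
      KodairaGe N δ (∑ i ∈ I, n i) ∧ NumericalLe N δ (∑ i ∈ I, n i)) := by
  have hw : ∀ v : Fin r → ℕ, weight n d v = ∑ i, (((d i : ℚ) - n i - 1) / d i) * v i := by
    intro v
    unfold weight
    refine Finset.sum_congr rfl fun i _ => ?_
    have h1 : (d i : ℚ) ≠ 0 := by
      have := hd i
      exact_mod_cast (by omega : d i ≠ 0)
    congr 1
    field_simp
    ring
  simp only [hw] at hI ⊢
  exact Pool.Agent.U188.LcProd.main (N := N) hr hn hN hd hF hs hx0 hbas hm hdiv hz hgen
    (S := fan) hpair.zero ⟨hpair.adm, hpair.cover, hpair.linear⟩ hpair.le_one hδ I hI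

end Pool.Agent.Results.MP_2c56d9_ag.ToroidalPairs
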